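import Pool.Agent.N356.SP.DefsK
import Pool.Agent.N608.LS.L14

/-! GK16a of the project LK (helper356), by helper690: pigeonhole to one class, every `k`. -/

set_option autoImplicit false

namespace Pool.Agent.N690.LK

open Finset Pool.Agent.H384R3.SPk Pool.Agent.N356.SP Pool.Agent.N608.LS

/-- the colours -/
abbrev ColK (k : ℕ) : Type :=
  (q : {q : Fin (2 * k + 1) // Nat.Prime (q : ℕ)}) → ZMod (2 * k) × ZMod ((q.1 : ℕ) ^ (2 * k))

/-- the colour -/
def colK (k : ℕ) (a : ℤ) : ColK k := fun q =>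
  ((padicValInt (q.1 : ℕ) a : ZMod (2 * k)),
    ((a / ((q.1 : ℕ) : ℤ) ^ padicValInt (q.1 : ℕ) a : ℤ) : ZMod ((q.1 : ℕ) ^ (2 * k))))

theorem colK_eq {k : ℕ} {a b : ℤ} (h : colK k a = colK k b) {q : ℕ} (hq : q.Prime)
    (hqk : q ≤ 2 * k) : padicValInt q a ≡ padicValInt q b [MOD 2 * k] ∧
    a / (q : ℤ) ^ padicValInt q a ≡ b / (q : ℤ) ^ padicValInt q b [ZMOD (q : ℤ) ^ (2 * k)] := by
  have h0 := congrFun h ⟨⟨q, Nat.lt_succ_of_le hqk⟩, hq⟩
  have h1 := congrArg Prod.fst h0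
  have h2 := congrArg Prod.snd h0
  refine ⟨(ZMod.natCast_eq_natCast_iff _ _ _).1 h1, ?_⟩
  have h3 := (ZMod.intCast_eq_intCast_iff _ _ _).1 h2
  push_cast at h3
  exact h3

theorem exists_monoK (k : ℕ) : ∃ K : ℕ, 0 < K ∧ ∀ A : Finset ℤ, A.Nonempty → (∀ a ∈ A, 0 < a) →
    ∃ A' ⊆ A, A'.Nonempty ∧ MonoK k A' ∧ A.card ≤ K * A'.card := by
  classical
  rcases Nat.eq_zero_or_pos k with rfl | hk
  · refine ⟨1, one_pos, fun A hA _ => ⟨A, Finset.Subset.refl _, hA, ?_, by rw [one_mul]⟩⟩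
    intro q hq hq0
    have := hq.pos
    omega
  · haveI : NeZero (2 * k) := ⟨by omega⟩
    letI : ∀ q : {q : Fin (2 * k + 1) // Nat.Prime (q : ℕ)},
        Fintype (ZMod (2 * k) × ZMod ((q.1 : ℕ) ^ (2 * k))) := fun q =>
      haveI : NeZero ((q.1 : ℕ) ^ (2 * k)) := ⟨pow_ne_zero _ q.2.ne_zero⟩
      inferInstance
    obtain ⟨K, hK, hf⟩ := exists_fiber' (colK k)
    refine ⟨K, hK, fun A hA _ => ?_⟩
    obtain ⟨y, hy⟩ := hf A
    refine ⟨A.filter fun x => colK k x = y, filter_subset _ _, ?_, ?_, hy⟩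
    · rw [← card_pos]
      have h1 : 0 < A.card := card_pos.2 hA
      rcases Nat.eq_zero_or_pos (A.filter fun x => colK k x = y).card with h | h
      · rw [h, mul_zero] at hy
        omega
      · exact h
    · intro q hq hqk a ha b hb
      have hab : colK k a = colK k b := by
        rw [(mem_filter.1 ha).2, (mem_filter.1 hb).2]
      exact colK_eq hab hq hqk

end Pool.Agent.N690.LK
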